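import Pool.Agent.PPW.Final
import Pool.Agent.PPG.GAP

/-!
# MP_0bf616_gt: Petty's conjectured projection inequality in all sufficiently high dimensions

There is `n₀` such that Petty's conjecture is true in `R^n` for every `n ≥ n₀`: for all convex
bodies `K` in `R^n` one has `|Π K| ≥ κ_{n-1}^n κ_n^{-(n-2)} |K|^{n-1}`, with equality precisely
for ellipsoids.  Moreover the inequality is stable: if every linear image of `K` has isoperimetric
ratio at least `1 + η` times that of the ball, then it holds with the additional factor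
`(1 + η)^(c n)`.  In all dimensions `n ≥ 2` the inequality holds up to an absolute constant
factor.
-/

set_option autoImplicit false

namespace Pool.Agent.Results.MP_0bf616_gt.LargeDimensions

open MeasureTheory
open scoped Pointwise

noncomputable section

/-- Euclidean space of dimension `n`. -/
abbrev E (n : ℕ) := EuclideanSpace ℝ (Fin n)

/-- `K` is a convex body: compact, convex, with nonempty interior. -/
def IsConvexBody {n : ℕ} (K : Set (E n)) : Prop :=
  IsCompact K ∧ Convex ℝ K ∧ (interior K).Nonempty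

/-- `K` is an ellipsoid: the image of the closed unit ball under an invertible affine map. -/
def IsEllipsoid {n : ℕ} (K : Set (E n)) : Prop :=
  ∃ (T : E n →L[ℝ] E n) (z : E n), T.det ≠ 0 ∧
    K = (fun x => T x + z) '' Metric.closedBall (0 : E n) 1

/-- Lebesgue measure in `R^n`, as a real number. -/
def vol {n : ℕ} (K : Set (E n)) : ℝ := (volume K).toReal

/-- `κ_n`, the volume of the closed unit ball of `R^n`. -/
def kappa (n : ℕ) : ℝ := vol (Metric.closedBall (0 : E n) 1)

/-- The hyperplane `u^⊥`. -/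
def hyp {n : ℕ} (u : E n) : Submodule ℝ (E n) := (ℝ ∙ u)ᗮ

/-- The Lebesgue measure (canonical volume) of a subset `S` of a finite-dimensional Euclidean
space `F`, as a real number. -/
def volIn (F : Type) [NormedAddCommGroup F] [InnerProductSpace ℝ F]
    [FiniteDimensional ℝ F] [MeasurableSpace F] [BorelSpace F] (S : Set F) : ℝ :=
  ((measureSpaceOfInnerProductSpace (E := F)).volume S).toReal

/-- The orthogonal projection `K | u^⊥` of `K` onto `u^⊥`: all `y` in `u^⊥` such that the line
`y + R u` meets `K`. -/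
def proj {n : ℕ} (K : Set (E n)) (u : E n) : Set ↥(hyp u) :=
  {y | ∃ a : ℝ, (y : E n) + a • u ∈ K}

/-- `λ_{n-1}(K | u^⊥)`, the `(n-1)`-dimensional Lebesgue measure of the projection. -/
def shadow {n : ℕ} (K : Set (E n)) (u : E n) : ℝ := volIn ↥(hyp u) (proj K u)

/-- The projection body `Π K`: all `y` with `⟨u, y⟩ ≤ λ_{n-1}(K | u^⊥)` for every unit
vector `u`. -/
def projBody {n : ℕ} (K : Set (E n)) : Set (E n) :=
  {y | ∀ u : E n, ‖u‖ = 1 → inner ℝ u y ≤ shadow K u}

/-- The right-hand side of Petty's conjectured inequality. -/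
def pettyBound {n : ℕ} (K : Set (E n)) : ℝ :=
  kappa (n - 1) ^ n / kappa n ^ (n - 2) * vol K ^ (n - 1)

/-- Every linear image `T K` of `K` with the volume `κ_n` of the unit ball `B` satisfies
`|T K + t B| ≥ κ_n (1 + (1 + η) n t)` for all `t > 0`.  By Steiner's formula this means that the
surface area of every such image is at least `(1 + η) n κ_n`, that is `1 + η` times the surface
area of `B`. -/
def HasIsoperimetricGap {n : ℕ} (K : Set (E n)) (η : ℝ) : Prop :=
  ∀ T : E n →L[ℝ] E n, vol (T '' K) = kappa n → ∀ t : ℝ, 0 < t →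
    kappa n * (1 + (1 + η) * n * t) ≤ vol (T '' K + t • Metric.closedBall (0 : E n) 1)

/-- Petty's conjecture in all sufficiently high dimensions: the inequality, the equality case
(precisely the ellipsoids), and stability in terms of the isoperimetric ratio.  In all dimensions
the inequality holds up to an absolute constant factor `A`. -/
theorem result : ∃ (A c : ℝ) (n₀ : ℕ), 0 < c ∧
    (∀ n : ℕ, n₀ ≤ n → ∀ K : Set (E n), IsConvexBody K →
      pettyBound K ≤ vol (projBody K) ∧
      (vol (projBody K) = pettyBound K ↔ IsEllipsoid K) ∧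
      ∀ η : ℝ, 0 ≤ η → HasIsoperimetricGap K η →
        (1 + η) ^ (c * n) * pettyBound K ≤ vol (projBody K)) ∧
    ∀ n : ℕ, 2 ≤ n → ∀ K : Set (E n), IsConvexBody K → pettyBound K ≤ A * vol (projBody K) := by
  obtain ⟨c, n₁, hc, h⟩ := PPW.t_FIN
  obtain ⟨c₂, C, _, hC, h'⟩ := PPG.t_FIN.1
  have key : ∀ n : ℕ, max 2 n₁ ≤ n → ∀ K : Set (E n), IsConvexBody K →
      pettyBound K ≤ vol (projBody K) ∧
      (vol (projBody K) = pettyBound K ↔ IsEllipsoid K) ∧
      ∀ η : ℝ, 0 ≤ η → HasIsoperimetricGap K η →
        (1 + η) ^ (c * n) * pettyBound K ≤ vol (projBody K) := by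
    intro n hn K hK
    have hn2 : 2 ≤ n := le_trans (le_max_left _ _) hn
    obtain ⟨h1, h2, h3⟩ := h n (le_trans (le_max_right _ _) hn) hn2 K hK.2.1 hK.1 hK.2.2
    have hk : 0 < PPI.kap n := (PPI.t_AVE n (by omega)).1
    have hv : 0 < PPI.vl K := PPG.GAP_.vl_pos hK.1 hK.2.2
    exact ⟨h1, h2, fun η hη hgap => h3 η hη (PPG.GAP_.form hk hv hgap)⟩
  refine ⟨(max 2 n₁ : ℕ) ^ C, c, max 2 n₁, hc, key, ?_⟩
  intro n hn K hK
  have hv : 0 ≤ vol (projBody K) := ENNReal.toReal_nonneg
  have hm : (1 : ℝ) ≤ ((max 2 n₁ : ℕ) : ℝ) := by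
    have : 1 ≤ max 2 n₁ := le_trans (by norm_num) (le_max_left _ _)
    exact_mod_cast this
  rcases le_total (max 2 n₁) n with h1 | h1
  · exact ((key n h1 K hK).1).trans (le_mul_of_one_le_left hv (Real.one_le_rpow hm hC.le))
  · have h2 : (n : ℝ) ^ (-C) * pettyBound K ≤ vol (projBody K) :=
      (h' n hn K hK.2.1 hK.1 hK.2.2).1
    have hn0 : (0 : ℝ) < n := by
      have : 0 < n := by omega
      exact_mod_cast this
    have h3 : pettyBound K ≤ (n : ℝ) ^ C * vol (projBody K) := by
      calc pettyBound K = (n : ℝ) ^ C * ((n : ℝ) ^ (-C) * pettyBound K) := by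
            rw [← mul_assoc, ← Real.rpow_add hn0, add_neg_cancel, Real.rpow_zero, one_mul]
        _ ≤ (n : ℝ) ^ C * vol (projBody K) :=
            mul_le_mul_of_nonneg_left h2 (Real.rpow_nonneg hn0.le _)
    refine h3.trans (mul_le_mul_of_nonneg_right ?_ hv)
    exact Real.rpow_le_rpow hn0.le (by exact_mod_cast h1) hC.le

end

end Pool.Agent.Results.MP_0bf616_gt.LargeDimensions
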